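import Mathlib

/-! MP_4ab349_nt, project ZB: the lattice count in the plane.
Points `(c, μ)` with `len (c, μ) = |c| w + 2 L |c α - μ| ≤ r`; their number is at least
`(1 - o(1)) r^2 / (L w)` and the sum of `len` over them and their translates by `(1, 0)` is at most
`(1 + o(1)) (2/3) r^3 / (L w)`. -/

open Finset

namespace Pool.ZB

/-- the length of a point -/
noncomputable def len (L w al : ℝ) (v : ℤ × ℤ) : ℝ :=
  |(v.1 : ℝ)| * w + 2 * L * |(v.1 : ℝ) * al - v.2|

/-- the shift by `(1, 0)` -/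
def sh (v : ℤ × ℤ) : ℤ × ℤ := (v.1 + 1, v.2)

namespace Geom

/-- the primitive of `|x|` -/
noncomputable def F (x : ℝ) : ℝ := x * |x| / 2

theorem F_step (u : ℝ) : |u| ≤ F (u + 1 / 2) - F (u - 1 / 2) := by
  unfold F
  rcases le_or_gt (1 / 2) u with h | h
  · rw [abs_of_nonneg (by linarith : (0 : ℝ) ≤ u), abs_of_nonneg (by linarith : (0 : ℝ) ≤ u + 1 / 2),
      abs_of_nonneg (by linarith : (0 : ℝ) ≤ u - 1 / 2)]
    nlinarith
  · rcases le_or_gt u (-(1 / 2)) with h' | h'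
    · rw [abs_of_nonpos (by linarith : u ≤ 0), abs_of_nonpos (by linarith : u + 1 / 2 ≤ 0),
        abs_of_nonpos (by linarith : u - 1 / 2 ≤ 0)]
      nlinarith
    · rw [abs_of_nonneg (by linarith : (0 : ℝ) ≤ u + 1 / 2),
        abs_of_nonpos (by linarith : u - 1 / 2 ≤ 0)]
      have h2 : |u| ^ 2 = u ^ 2 := sq_abs u
      nlinarith [sq_nonneg (|u| - 1 / 2)]

theorem F_mono {x y : ℝ} (h : x ≤ y) : F x ≤ F y := by
  unfold F
  rcases le_total 0 x with hx | hx
  · rw [abs_of_nonneg hx, abs_of_nonneg (hx.trans h)]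
    nlinarith
  · rcases le_total 0 y with hy | hy
    · rw [abs_of_nonpos hx, abs_of_nonneg hy]
      nlinarith
    · rw [abs_of_nonpos hx, abs_of_nonpos hy]
      nlinarith

theorem sum_Ico (y : ℝ) (a : ℤ) (n : ℕ) :
    ∑ c ∈ Finset.Ico a (a + n), |(c : ℝ) - y| ≤ F (a + n - y - 1 / 2) - F (a - y - 1 / 2) := by
  induction n with
  | zero => simp
  | succ n ih =>
    have e : Finset.Ico a (a + ((n + 1 : ℕ) : ℤ)) = insert (a + (n : ℤ)) (Finset.Ico a (a + n)) := by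
      ext x
      simp only [Finset.mem_Ico, Finset.mem_insert]
      push_cast
      omega
    rw [e, Finset.sum_insert (by simp)]
    have h1 := F_step (((a + (n : ℤ) : ℤ) : ℝ) - y)
    push_cast at h1 ⊢
    have e1 : (a : ℝ) + n - y + 1 / 2 = a + (n + 1) - y - 1 / 2 := by ring
    rw [e1] at h1
    linarith

/-- the row of `μ`: the integers at distance at most `h` from `y` -/
noncomputable def row (y h : ℝ) : Finset ℤ := Finset.Icc ⌈y - h⌉ ⌊y + h⌋

theorem mem_row {y h : ℝ} {c : ℤ} : c ∈ row y h ↔ |(c : ℝ) - y| ≤ h := by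
  unfold row
  rw [Finset.mem_Icc, Int.ceil_le, Int.le_floor, abs_le]
  constructor
  · rintro ⟨h1, h2⟩
    constructor <;> linarith
  · rintro ⟨h1, h2⟩
    constructor <;> linarith

theorem card_row_ge (y h : ℝ) : 2 * h - 1 ≤ ((row y h).card : ℝ) := by
  unfold row
  rw [Int.card_Icc]
  have h1 : (⌊y + h⌋ : ℝ) > y + h - 1 := Int.sub_one_lt_floor _
  have h2 : (⌈y - h⌉ : ℝ) < y - h + 1 := Int.ceil_lt_add_one _
  have h3 : (((⌊y + h⌋ + 1 - ⌈y - h⌉ : ℤ)) : ℝ) ≤ (((⌊y + h⌋ + 1 - ⌈y - h⌉).toNat : ℕ) : ℝ) := by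
    have := Int.self_le_toNat (⌊y + h⌋ + 1 - ⌈y - h⌉)
    exact_mod_cast this
  push_cast at h3
  linarith

theorem card_row_le {y h : ℝ} (hh : 0 ≤ h) : ((row y h).card : ℝ) ≤ 2 * h + 1 := by
  unfold row
  rw [Int.card_Icc]
  have h1 : (⌊y + h⌋ : ℝ) ≤ y + h := Int.floor_le _
  have h2 : (⌈y - h⌉ : ℝ) ≥ y - h := Int.le_ceil _
  rcases le_total 0 (⌊y + h⌋ + 1 - ⌈y - h⌉) with h3 | h3
  · have h4 : (((⌊y + h⌋ + 1 - ⌈y - h⌉).toNat : ℤ)) = ⌊y + h⌋ + 1 - ⌈y - h⌉ := Int.toNat_of_nonneg h3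
    have h5 : (((⌊y + h⌋ + 1 - ⌈y - h⌉).toNat : ℕ) : ℝ) = ((⌊y + h⌋ + 1 - ⌈y - h⌉ : ℤ) : ℝ) := by
      exact_mod_cast h4
    rw [h5]
    push_cast
    linarith
  · rw [Int.toNat_of_nonpos h3]
    push_cast
    linarith

theorem sum_row_le {y h : ℝ} (hh : 0 ≤ h) : ∑ c ∈ row y h, |(c : ℝ) - y| ≤ (h + 1 / 2) ^ 2 := by
  have h1 : (⌊y + h⌋ : ℝ) ≤ y + h := Int.floor_le _
  have h2 : (⌈y - h⌉ : ℝ) ≥ y - h := Int.le_ceil _
  rcases le_total ⌈y - h⌉ (⌊y + h⌋ + 1) with h3 | h3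
  · obtain ⟨n, hn⟩ := Int.eq_ofNat_of_zero_le (sub_nonneg.mpr h3)
    have e : row y h = Finset.Ico ⌈y - h⌉ (⌈y - h⌉ + (n : ℤ)) := by
      unfold row
      ext x
      simp only [Finset.mem_Icc, Finset.mem_Ico]
      omega
    rw [e]
    refine (sum_Ico y ⌈y - h⌉ n).trans ?_
    have h4 : ((⌈y - h⌉ : ℝ)) + n = ⌊y + h⌋ + 1 := by
      have : (⌈y - h⌉ : ℤ) + n = ⌊y + h⌋ + 1 := by omega
      exact_mod_cast this
    rw [h4]
    have h5 : F (⌊y + h⌋ + 1 - y - 1 / 2) ≤ F (h + 1 / 2) := F_mono (by linarith)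
    have h6 : F (-(h + 1 / 2)) ≤ F (⌈y - h⌉ - y - 1 / 2) := F_mono (by linarith)
    have h7 : F (h + 1 / 2) = (h + 1 / 2) ^ 2 / 2 := by
      unfold F
      rw [abs_of_nonneg (by linarith)]
      ring
    have h8 : F (-(h + 1 / 2)) = -((h + 1 / 2) ^ 2 / 2) := by
      unfold F
      rw [abs_of_nonpos (by linarith)]
      ring
    linarith
  · have e : row y h = ∅ := by
      unfold row
      apply Finset.Icc_eq_empty
      omega
    rw [e, Finset.sum_empty]
    positivity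

/-- the row with one more point to the right -/
noncomputable def row' (y h : ℝ) : Finset ℤ := Finset.Icc ⌈y - h⌉ (⌊y + h⌋ + 1)

theorem sum_row'_le {y h : ℝ} (f : ℤ → ℝ) (hf : ∀ c, 0 ≤ f c) :
    ∑ c ∈ row' y h, f c ≤ ∑ c ∈ row y h, f c + f (⌊y + h⌋ + 1) := by
  have hsub : row' y h ⊆ insert (⌊y + h⌋ + 1) (row y h) := by
    intro x hx
    unfold row' at hx
    unfold row
    simp only [Finset.mem_Icc, Finset.mem_insert] at hx ⊢
    omega
  refine (Finset.sum_le_sum_of_subset_of_nonneg hsub (fun i _ _ => hf i)).trans ?_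
  rw [Finset.sum_insert]
  · linarith
  · unfold row
    simp

/-- symmetric sums -/
theorem Icc_symm_succ (M : ℕ) : Finset.Icc (-((M + 1 : ℕ) : ℤ)) ((M + 1 : ℕ) : ℤ) =
    insert (-((M : ℤ) + 1)) (insert ((M : ℤ) + 1) (Finset.Icc (-(M : ℤ)) M)) := by
  ext x
  simp only [Finset.mem_Icc, Finset.mem_insert]
  push_cast
  omega

theorem sum_symm_abs (M : ℕ) : ∑ m ∈ Finset.Icc (-(M : ℤ)) M, |(m : ℝ)| = M * (M + 1) := by
  induction M with
  | zero => simp
  | succ M ih =>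
    have h1 : ((M : ℤ) + 1) ∉ Finset.Icc (-(M : ℤ)) M := by simp
    have h2 : (-((M : ℤ) + 1)) ∉ insert ((M : ℤ) + 1) (Finset.Icc (-(M : ℤ)) M) := by
      simp only [Finset.mem_insert, Finset.mem_Icc]
      omega
    have hM : (0 : ℝ) ≤ M := Nat.cast_nonneg M
    rw [Icc_symm_succ, Finset.sum_insert h2, Finset.sum_insert h1, ih]
    push_cast
    rw [abs_of_nonpos (by linarith : -((M : ℝ) + 1) ≤ 0),
      abs_of_nonneg (by linarith : (0 : ℝ) ≤ (M : ℝ) + 1)]
    ring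

theorem sum_symm_sq (M : ℕ) :
    ∑ m ∈ Finset.Icc (-(M : ℤ)) M, (m : ℝ) ^ 2 = M * (M + 1) * (2 * M + 1) / 3 := by
  induction M with
  | zero => simp
  | succ M ih =>
    have h1 : ((M : ℤ) + 1) ∉ Finset.Icc (-(M : ℤ)) M := by simp
    have h2 : (-((M : ℤ) + 1)) ∉ insert ((M : ℤ) + 1) (Finset.Icc (-(M : ℤ)) M) := by
      simp only [Finset.mem_insert, Finset.mem_Icc]
      omega
    rw [Icc_symm_succ, Finset.sum_insert h2, Finset.sum_insert h1, ih]
    push_cast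
    ring

theorem card_symm (M : ℕ) : ((Finset.Icc (-(M : ℤ)) M).card : ℝ) = 2 * M + 1 := by
  rw [Int.card_Icc]
  have h : (((M : ℤ) + 1 - -(M : ℤ)).toNat : ℤ) = 2 * M + 1 := by
    rw [Int.toNat_of_nonneg (by omega)]
    ring
  exact_mod_cast h

/-- lower bound for `Σ (r - |μ| g)` -/
theorem low_sum {r g : ℝ} (hg : 0 < g) (hr : 0 ≤ r) :
    r ^ 2 / g ≤ ∑ m ∈ Finset.Icc (-((⌊r / g⌋₊ : ℕ) : ℤ)) (⌊r / g⌋₊ : ℕ), (r - |(m : ℝ)| * g) := by
  set M := ⌊r / g⌋₊ with hM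
  have h1 : (M : ℝ) ≤ r / g := Nat.floor_le (by positivity)
  have h2 : r / g < M + 1 := Nat.lt_floor_add_one _
  rw [Finset.sum_sub_distrib, Finset.sum_const, nsmul_eq_mul, card_symm, ← Finset.sum_mul,
    sum_symm_abs]
  set q := r / g with hq
  have e : r = q * g := by rw [hq]; field_simp
  have e2 : r ^ 2 / g = q ^ 2 * g := by rw [e]; field_simp
  rw [e2, e]
  have h3 : 0 ≤ (q - M) * (M + 1 - q) := mul_nonneg (by linarith) (by linarith)
  nlinarith

/-- upper bound for `Σ (r^2 - μ^2 g^2)` -/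
theorem up_sum {r g : ℝ} (hg : 0 < g) (hr : 0 ≤ r) :
    ∑ m ∈ Finset.Icc (-((⌊r / g⌋₊ : ℕ) : ℤ)) (⌊r / g⌋₊ : ℕ), (r ^ 2 - (m : ℝ) ^ 2 * g ^ 2) ≤
      4 / 3 * (r ^ 3 / g) + (2 * (⌊r / g⌋₊ : ℝ) + 1) * g ^ 2 / 12 := by
  set M := ⌊r / g⌋₊ with hM
  rw [Finset.sum_sub_distrib, Finset.sum_const, nsmul_eq_mul, card_symm, ← Finset.sum_mul,
    sum_symm_sq]
  set q := r / g with hq
  have hq0 : 0 ≤ q := by rw [hq]; positivity
  have hM0 : (0 : ℝ) ≤ M := Nat.cast_nonneg M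
  have e : r = q * g := by rw [hq]; field_simp
  have e2 : r ^ 3 / g = q ^ 3 * g ^ 2 := by rw [e]; field_simp
  rw [e2, e]
  have key : (2 * (M : ℝ) + 1) * q ^ 2 - M * (M + 1) * (2 * M + 1) / 3 ≤
      4 / 3 * q ^ 3 + (2 * M + 1) / 12 := by
    have h3 : 0 ≤ (q - (M + 1 / 2)) ^ 2 * (2 * q + (M + 1 / 2)) := by positivity
    nlinarith
  have h4 := mul_le_mul_of_nonneg_right key (by positivity : (0 : ℝ) ≤ g ^ 2)
  nlinarith

theorem len_nonneg {L w al : ℝ} (hw : 0 ≤ w) (hL : 0 ≤ L) (v : ℤ × ℤ) : 0 ≤ len L w al v := by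
  unfold len
  positivity

theorem len_le {L w al : ℝ} (hw : 0 ≤ w) (hal : 0 < al) (c m : ℤ) :
    len L w al (c, m) ≤ |(m : ℝ)| * (w / al) + (2 * L * al + w) * |(c : ℝ) - m / al| := by
  unfold len
  simp only
  have h1 : |(c : ℝ)| ≤ |(m : ℝ)| / al + |(c : ℝ) - m / al| := by
    have e : (c : ℝ) = m / al + ((c : ℝ) - m / al) := by ring
    calc |(c : ℝ)| = |m / al + ((c : ℝ) - m / al)| := by rw [← e]
      _ ≤ |(m : ℝ) / al| + |(c : ℝ) - m / al| := abs_add_le _ _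
      _ = |(m : ℝ)| / al + |(c : ℝ) - m / al| := by rw [abs_div, abs_of_pos hal]
  have h2 : |(c : ℝ) * al - m| = al * |(c : ℝ) - m / al| := by
    have e : (c : ℝ) * al - m = al * ((c : ℝ) - m / al) := by field_simp
    rw [e, abs_mul, abs_of_pos hal]
  rw [h2]
  have h3 := mul_le_mul_of_nonneg_right h1 hw
  have e3 : |(m : ℝ)| * (w / al) = |(m : ℝ)| / al * w := by ring
  rw [e3]
  nlinarith

/-- the sum of the lengths in an extended row -/
theorem row_len {L w al r : ℝ} (hw : 0 < w) (hL : 0 < L) (hal : 0 < al) (m : ℤ)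
    (hm : |(m : ℝ)| * (w / al) ≤ r) :
    ∑ c ∈ row' (m / al) ((r - |(m : ℝ)| * (w / al)) / (2 * L * al + w)), len L w al (c, m) ≤
      (r ^ 2 - (m : ℝ) ^ 2 * (w / al) ^ 2) / (2 * L * al + w) + 2 * r +
        5 / 4 * (2 * L * al + w) := by
  set B := 2 * L * al + w with hB
  have hB0 : 0 < B := by positivity
  set g := w / al with hg
  set t := |(m : ℝ)| * g with ht
  have ht0 : 0 ≤ t := by positivity
  set h := (r - t) / B with hh
  have hh0 : 0 ≤ h := div_nonneg (by linarith) hB0.le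
  have hBh : B * h = r - t := by rw [hh]; field_simp
  set y := (m : ℝ) / al with hy
  have h1 := sum_row'_le (y := y) (h := h) (fun c => len L w al (c, m))
    (fun c => len_nonneg hw.le hL.le _)
  have h2 : ∑ c ∈ row y h, len L w al (c, m) ≤ (2 * h + 1) * t + B * (h + 1 / 2) ^ 2 := by
    calc ∑ c ∈ row y h, len L w al (c, m) ≤ ∑ c ∈ row y h, (t + B * |(c : ℝ) - y|) :=
          Finset.sum_le_sum (fun c _ => len_le hw.le hal c m)
      _ = ((row y h).card : ℝ) * t + B * ∑ c ∈ row y h, |(c : ℝ) - y| := by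
          rw [Finset.sum_add_distrib, Finset.sum_const, nsmul_eq_mul, Finset.mul_sum]
      _ ≤ _ := add_le_add (mul_le_mul_of_nonneg_right (card_row_le hh0) ht0)
          (mul_le_mul_of_nonneg_left (sum_row_le hh0) hB0.le)
  have h3 : len L w al (⌊y + h⌋ + 1, m) ≤ t + B * (h + 1) := by
    refine (len_le hw.le hal _ m).trans ?_
    have h4 : |((⌊y + h⌋ + 1 : ℤ) : ℝ) - m / al| ≤ h + 1 := by
      have h5 : (⌊y + h⌋ : ℝ) > y + h - 1 := Int.sub_one_lt_floor _
      have h6 : (⌊y + h⌋ : ℝ) ≤ y + h := Int.floor_le _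
      push_cast
      rw [abs_le]
      constructor <;> linarith
    have h7 := mul_le_mul_of_nonneg_left h4 hB0.le
    linarith
  have e : (r ^ 2 - (m : ℝ) ^ 2 * g ^ 2) / B = h * (r + t) := by
    have e1 : (m : ℝ) ^ 2 * g ^ 2 = t ^ 2 := by rw [ht, mul_pow, sq_abs]
    rw [e1, hh]
    field_simp
    ring
  rw [e]
  have h8 : B * h ^ 2 = (r - t) * h := by rw [← hBh]; ring
  nlinarith

/-- the embedding of the sigma type -/
def emb : (Σ _ : ℤ, ℤ) ↪ ℤ × ℤ :=
  ⟨fun x => (x.2, x.1), by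
    rintro ⟨a, b⟩ ⟨c, d⟩ h
    simp only [Prod.mk.injEq] at h
    obtain ⟨h1, h2⟩ := h
    subst h1
    subst h2
    rfl⟩

/-- the half width of a row -/
noncomputable def hw' (L w al r : ℝ) (m : ℤ) : ℝ :=
  (r - |(m : ℝ)| * (w / al)) / (2 * L * al + w)

/-- the index set of rows -/
noncomputable def idx (w al r : ℝ) : Finset ℤ :=
  Finset.Icc (-((⌊r / (w / al)⌋₊ : ℕ) : ℤ)) (⌊r / (w / al)⌋₊ : ℕ)

/-- the set of points -/
noncomputable def CC (L w al r : ℝ) : Finset (ℤ × ℤ) :=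
  ((idx w al r).sigma (fun m => row (m / al) (hw' L w al r m))).map emb

/-- a superset of the points and their shifts -/
noncomputable def CC' (L w al r : ℝ) : Finset (ℤ × ℤ) :=
  ((idx w al r).sigma (fun m => row' (m / al) (hw' L w al r m))).map emb

theorem mem_CC {L w al r : ℝ} {v : ℤ × ℤ} :
    v ∈ CC L w al r ↔ v.2 ∈ idx w al r ∧ |(v.1 : ℝ) - v.2 / al| ≤ hw' L w al r v.2 := by
  unfold CC
  rw [Finset.mem_map]
  constructor
  · rintro ⟨⟨m, c⟩, h, rfl⟩
    rw [Finset.mem_sigma] at h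
    exact ⟨h.1, mem_row.mp h.2⟩
  · rintro ⟨h1, h2⟩
    exact ⟨⟨v.2, v.1⟩, Finset.mem_sigma.mpr ⟨h1, mem_row.mpr h2⟩, rfl⟩

theorem CC_sub (L w al r : ℝ) : CC L w al r ∪ (CC L w al r).image sh ⊆ CC' L w al r := by
  intro v hv
  rw [Finset.mem_union] at hv
  unfold CC'
  rw [Finset.mem_map]
  rcases hv with hv | hv
  · obtain ⟨h1, h2⟩ := mem_CC.mp hv
    refine ⟨⟨v.2, v.1⟩, Finset.mem_sigma.mpr ⟨h1, ?_⟩, rfl⟩
    have h3 := mem_row.mpr h2
    unfold row at h3
    unfold row'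
    simp only [Finset.mem_Icc] at h3 ⊢
    omega
  · obtain ⟨u, hu, rfl⟩ := Finset.mem_image.mp hv
    obtain ⟨h1, h2⟩ := mem_CC.mp hu
    refine ⟨⟨u.2, u.1 + 1⟩, Finset.mem_sigma.mpr ⟨h1, ?_⟩, rfl⟩
    have h3 := mem_row.mpr h2
    unfold row at h3
    unfold row'
    simp only [Finset.mem_Icc] at h3 ⊢
    omega

theorem idx_le {w al r : ℝ} (hw : 0 < w) (hal : 0 < al) (hr : 0 ≤ r) {m : ℤ}
    (hm : m ∈ idx w al r) : |(m : ℝ)| * (w / al) ≤ r := by
  unfold idx at hm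
  rw [Finset.mem_Icc] at hm
  have h1 : |m| ≤ ((⌊r / (w / al)⌋₊ : ℕ) : ℤ) := abs_le.mpr hm
  have h2 : |(m : ℝ)| ≤ (⌊r / (w / al)⌋₊ : ℝ) := by exact_mod_cast h1
  have h3 : (⌊r / (w / al)⌋₊ : ℝ) ≤ r / (w / al) := Nat.floor_le (by positivity)
  have h4 : |(m : ℝ)| ≤ r / (w / al) := h2.trans h3
  rwa [le_div_iff₀ (by positivity)] at h4

theorem len_CC {L w al r : ℝ} (hw : 0 < w) (hL : 0 < L) (hal : 0 < al)
    {v : ℤ × ℤ} (hv : v ∈ CC L w al r) : len L w al v ≤ r := by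
  obtain ⟨h1, h2⟩ := mem_CC.mp hv
  have h3 := len_le (L := L) hw.le hal v.1 v.2
  have h4 : (2 * L * al + w) * |(v.1 : ℝ) - v.2 / al| ≤ (2 * L * al + w) * hw' L w al r v.2 :=
    mul_le_mul_of_nonneg_left h2 (by positivity)
  have h5 : (2 * L * al + w) * hw' L w al r v.2 = r - |(v.2 : ℝ)| * (w / al) := by
    have : 0 < 2 * L * al + w := by positivity
    unfold hw'
    field_simp
  linarith

theorem CC_inj {L w al r : ℝ} (hw : 0 < w) (hL : 0 < L) (hal : 0 < al) (hr : r < L) :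
    Set.InjOn Prod.fst (CC L w al r : Set (ℤ × ℤ)) := by
  intro u hu v hv huv
  have h1 := len_CC hw hL hal (Finset.mem_coe.mp hu)
  have h2 := len_CC hw hL hal (Finset.mem_coe.mp hv)
  unfold len at h1 h2
  have e1 : (0 : ℝ) ≤ |(u.1 : ℝ)| * w := by positivity
  have e2 : (0 : ℝ) ≤ |(v.1 : ℝ)| * w := by positivity
  have h3 : |(u.1 : ℝ) * al - u.2| < 1 / 2 := by nlinarith
  have h4 : |(v.1 : ℝ) * al - v.2| < 1 / 2 := by nlinarith
  rw [abs_lt] at h3 h4
  have h5 : u.1 = v.1 := huv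
  rw [h5] at h3
  have h6 : u.2 = v.2 := by
    have h7 : (u.2 : ℝ) < v.2 + 1 := by linarith
    have h8 : (v.2 : ℝ) < u.2 + 1 := by linarith
    have h9 : u.2 < v.2 + 1 := by exact_mod_cast h7
    have h10 : v.2 < u.2 + 1 := by exact_mod_cast h8
    omega
  exact Prod.ext h5 h6

theorem card_CC {L w al r : ℝ} (hw : 0 < w) (hL : 0 < L) (hal : 0 < al) (hr : 0 ≤ r) :
    2 * (r ^ 2 / (w / al)) / (2 * L * al + w) - (2 * (r / (w / al)) + 1) ≤
      ((CC L w al r).card : ℝ) := by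
  unfold CC
  rw [Finset.card_map, Finset.card_sigma]
  push_cast
  have hB : 0 < 2 * L * al + w := by positivity
  have hg : 0 < w / al := by positivity
  have h1 : ∑ m ∈ idx w al r, (2 * hw' L w al r m - 1) ≤
      ∑ m ∈ idx w al r, ((row (m / al) (hw' L w al r m)).card : ℝ) :=
    Finset.sum_le_sum (fun m _ => card_row_ge _ _)
  refine le_trans ?_ h1
  rw [Finset.sum_sub_distrib, Finset.sum_const, nsmul_eq_mul, mul_one]
  have h2 : ((idx w al r).card : ℝ) ≤ 2 * (r / (w / al)) + 1 := by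
    unfold idx
    rw [card_symm]
    have : (⌊r / (w / al)⌋₊ : ℝ) ≤ r / (w / al) := Nat.floor_le (by positivity)
    linarith
  have h3 : 2 * (r ^ 2 / (w / al)) / (2 * L * al + w) ≤ ∑ m ∈ idx w al r, 2 * hw' L w al r m := by
    have h4 := low_sum hg hr
    have e : ∑ m ∈ idx w al r, 2 * hw' L w al r m =
        2 * (∑ m ∈ idx w al r, (r - |(m : ℝ)| * (w / al))) / (2 * L * al + w) := by
      rw [Finset.mul_sum, Finset.sum_div]
      apply Finset.sum_congr rfl
      intro m _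
      unfold hw'
      ring
    rw [e]
    apply div_le_div_of_nonneg_right _ hB.le
    have : r ^ 2 / (w / al) ≤ ∑ m ∈ idx w al r, (r - |(m : ℝ)| * (w / al)) := h4
    linarith
  linarith

theorem sum_CC' {L w al r : ℝ} (hw : 0 < w) (hL : 0 < L) (hal : 0 < al) (hr : 0 ≤ r) :
    ∑ v ∈ CC' L w al r, len L w al v ≤
      (4 / 3 * (r ^ 3 / (w / al)) + (2 * (r / (w / al)) + 1) * (w / al) ^ 2 / 12) /
        (2 * L * al + w) + (2 * (r / (w / al)) + 1) * (2 * r + 5 / 4 * (2 * L * al + w)) := by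
  have hB : 0 < 2 * L * al + w := by positivity
  have hg : 0 < w / al := by positivity
  unfold CC'
  rw [Finset.sum_map, Finset.sum_sigma]
  have hfl : (⌊r / (w / al)⌋₊ : ℝ) ≤ r / (w / al) := Nat.floor_le (by positivity)
  have h1 : ∑ m ∈ idx w al r, ∑ c ∈ row' (m / al) (hw' L w al r m), len L w al (c, m) ≤
      ∑ m ∈ idx w al r, ((r ^ 2 - (m : ℝ) ^ 2 * (w / al) ^ 2) / (2 * L * al + w) +
        (2 * r + 5 / 4 * (2 * L * al + w))) := by
    apply Finset.sum_le_sum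
    intro m hm
    have := row_len (L := L) hw hL hal m (idx_le hw hal hr hm)
    unfold hw'
    linarith
  refine le_trans h1 ?_
  rw [Finset.sum_add_distrib, Finset.sum_const, nsmul_eq_mul, ← Finset.sum_div]
  have h2 : ((idx w al r).card : ℝ) ≤ 2 * (r / (w / al)) + 1 := by
    unfold idx
    rw [card_symm]
    linarith
  have h3 := up_sum hg hr
  apply add_le_add
  · apply div_le_div_of_nonneg_right _ hB.le
    refine h3.trans ?_
    have h4 : (2 * (⌊r / (w / al)⌋₊ : ℝ) + 1) * (w / al) ^ 2 ≤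
        (2 * (r / (w / al)) + 1) * (w / al) ^ 2 :=
      mul_le_mul_of_nonneg_right (by linarith) (by positivity)
    linarith
  · exact mul_le_mul_of_nonneg_right h2 (by positivity)

theorem num_card {L w r al de et D : ℝ} (hw : 0 < w) (hDL : D * w ≤ L) (hr : de * L ≤ r)
    (hde : 0 < de) (hde1 : de < 1) (het : 0 < et) (hal1 : D * w / L ≤ al) (hal2 : al ≤ 1 / D)
    (hL : 0 < L) (hr0 : 0 < r) (hal : 0 < al) (hD0 : 0 < D) (hD3 : 4 / (de ^ 2 * et) ≤ D) :
    (1 - et) * (r ^ 2 / (L * w)) ≤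
      2 * (r ^ 2 / (w / al)) / (2 * L * al + w) - (2 * (r / (w / al)) + 1) := by
  set X := r ^ 2 / (L * w) with hX
  have hX0 : 0 < X := by positivity
  have hLe : L ≤ r / de := by rw [le_div_iff₀ hde]; linarith
  have hDw : D * w ≤ al * L := by rwa [div_le_iff₀ hL] at hal1
  have hDal : al * D ≤ 1 := by rwa [le_div_iff₀ hD0] at hal2
  have ha : (1 - 1 / (2 * D)) * X ≤ 2 * (r ^ 2 / (w / al)) / (2 * L * al + w) := by
    have hB : 0 < 2 * L * al + w := by positivity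
    rw [le_div_iff₀ hB]
    have e : 2 * (r ^ 2 / (w / al)) = X * (2 * L * al) := by rw [hX]; field_simp
    rw [e, mul_comm (1 - 1 / (2 * D)) X, mul_assoc]
    apply mul_le_mul_of_nonneg_left _ hX0.le
    have h1 : w ≤ 1 / (2 * D) * (2 * L * al + w) := by
      rw [div_mul_eq_mul_div, one_mul, le_div_iff₀ (by positivity)]
      nlinarith
    nlinarith
  have hb : 2 * (r / (w / al)) ≤ 2 / (de * D) * X := by
    have e : 2 * (r / (w / al)) = 2 * r * al / w := by field_simp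
    have e2 : 2 / (de * D) * X = 2 * r * (r / (L * de * D)) / w := by rw [hX]; field_simp
    rw [e, e2]
    apply div_le_div_of_nonneg_right _ hw.le
    apply mul_le_mul_of_nonneg_left _ (by positivity)
    rw [le_div_iff₀ (by positivity)]
    calc al * (L * de * D) = (al * D) * (de * L) := by ring
      _ ≤ 1 * r := mul_le_mul hDal hr (by positivity) (by norm_num)
      _ = r := one_mul r
  have hc : 1 ≤ 1 / (de ^ 2 * D) * X := by
    rw [hX, div_mul_div_comm, one_mul, le_div_iff₀ (by positivity), one_mul]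
    calc de ^ 2 * D * (L * w) = (de * L) * (de * (D * w)) := by ring
      _ ≤ r * (de * L) := by
        apply mul_le_mul hr _ (by positivity) hr0.le
        exact mul_le_mul_of_nonneg_left hDL hde.le
      _ ≤ r * r := mul_le_mul_of_nonneg_left hr hr0.le
      _ = r ^ 2 := by ring
  have hd : 1 / (2 * D) + 2 / (de * D) + 1 / (de ^ 2 * D) ≤ et := by
    have h1 : 4 ≤ D * (de ^ 2 * et) := by rwa [div_le_iff₀ (by positivity)] at hD3
    have e : 1 / (2 * D) + 2 / (de * D) + 1 / (de ^ 2 * D) =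
        (de ^ 2 / 2 + 2 * de + 1) / (de ^ 2 * D) := by field_simp
    rw [e, div_le_iff₀ (by positivity)]
    nlinarith
  have h5 := mul_le_mul_of_nonneg_right hd hX0.le
  nlinarith

theorem num_sum {L w r al de et D : ℝ} (hw : 0 < w) (hr : de * L ≤ r)
    (hde : 0 < de) (het : 0 < et) (hal1 : D * w / L ≤ al) (hal2 : al ≤ 1 / D)
    (hL : 0 < L) (hr0 : 0 < r) (hal : 0 < al) (hD1 : 1 ≤ D) (hD2 : 1 / de ≤ D)
    (hD3 : 27 / (de * et) ≤ D) :
    (4 / 3 * (r ^ 3 / (w / al)) + (2 * (r / (w / al)) + 1) * (w / al) ^ 2 / 12) /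
        (2 * L * al + w) + (2 * (r / (w / al)) + 1) * (2 * r + 5 / 4 * (2 * L * al + w)) ≤
      (1 + et) * (2 / 3) * (r ^ 3 / (L * w)) := by
  have hD0 : 0 < D := by linarith
  set Y := r ^ 3 / (L * w) with hY
  have hY0 : 0 < Y := by positivity
  have hDw : D * w ≤ al * L := by rwa [div_le_iff₀ hL] at hal1
  have hDal : al * D ≤ 1 := by rwa [le_div_iff₀ hD0] at hal2
  have hB : 0 < 2 * L * al + w := by positivity
  have hx1 : 1 / (de * D) ≤ 1 := by
    rw [div_le_one (by positivity)]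
    rwa [div_le_iff₀ hde, mul_comm] at hD2
  have hq1 : 1 ≤ r / (w / al) := by
    have e : r / (w / al) = r * al / w := by field_simp
    rw [e, le_div_iff₀ hw, one_mul]
    have h1 : 1 ≤ de * D := by
      rwa [div_le_iff₀ hde, mul_comm] at hD2
    calc w = 1 * w := (one_mul w).symm
      _ ≤ (de * D) * w := mul_le_mul_of_nonneg_right h1 hw.le
      _ = de * (D * w) := by ring
      _ ≤ de * (al * L) := mul_le_mul_of_nonneg_left hDw hde.le
      _ = (de * L) * al := by ring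
      _ ≤ r * al := mul_le_mul_of_nonneg_right hr hal.le
  set q := r / (w / al) with hq
  have e_q : q = r * al / w := by rw [hq]; field_simp
  have h3q : 2 * q + 1 ≤ 3 * q := by linarith
  have ha : 4 / 3 * (r ^ 3 / (w / al)) / (2 * L * al + w) ≤ 2 / 3 * Y := by
    rw [div_le_iff₀ hB]
    have e : 4 / 3 * (r ^ 3 / (w / al)) = 2 / 3 * Y * (2 * L * al) := by rw [hY]; field_simp; ring
    rw [e]
    apply mul_le_mul_of_nonneg_left _ (by positivity)
    linarith
  have hLr : (de * L) ^ 2 ≤ r ^ 2 := pow_le_pow_left₀ (by positivity) hr 2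
  have hb : 3 * q * (w / al) ^ 2 / 12 / (2 * L * al + w) ≤ 1 / 8 * (1 / (de * D)) ^ 2 * Y := by
    have e : 3 * q * (w / al) ^ 2 / 12 = r * w / (4 * al) := by rw [e_q]; field_simp; ring
    have e2 : 1 / 8 * (1 / (de * D)) ^ 2 * Y = r * (r ^ 2 / de ^ 2) / (8 * D ^ 2 * L * w) := by
      rw [hY]; field_simp
    have h1 : L ^ 2 ≤ r ^ 2 / de ^ 2 := by
      rw [le_div_iff₀ (by positivity)]
      calc L ^ 2 * de ^ 2 = (de * L) ^ 2 := by ring
        _ ≤ r ^ 2 := hLr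
    have h2 : r * L ^ 2 / (8 * D ^ 2 * L * w) ≤ 1 / 8 * (1 / (de * D)) ^ 2 * Y := by
      rw [e2]
      apply div_le_div_of_nonneg_right _ (by positivity)
      exact mul_le_mul_of_nonneg_left h1 hr0.le
    refine le_trans ?_ h2
    rw [e, div_div, div_le_div_iff₀ (by positivity) (by positivity)]
    have h3 : (D * w) ^ 2 ≤ (al * L) ^ 2 := pow_le_pow_left₀ (by positivity) hDw 2
    calc r * w * (8 * D ^ 2 * L * w) = (8 * r * L) * (D * w) ^ 2 := by ring
      _ ≤ (8 * r * L) * (al * L) ^ 2 := mul_le_mul_of_nonneg_left h3 (by positivity)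
      _ = r * L ^ 2 * (4 * al * (2 * L * al)) := by ring
      _ ≤ r * L ^ 2 * (4 * al * (2 * L * al + w)) := by
        apply mul_le_mul_of_nonneg_left _ (by positivity)
        apply mul_le_mul_of_nonneg_left _ (by positivity)
        linarith
  have hc : 3 * q * (2 * r) ≤ 6 * (1 / (de * D)) * Y := by
    have e : 3 * q * (2 * r) = 6 * r ^ 2 * al / w := by rw [e_q]; field_simp; ring
    have e2 : 6 * (1 / (de * D)) * Y = 6 * r ^ 2 * (r / (de * D * L)) / w := by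
      rw [hY]; field_simp
    rw [e, e2]
    apply div_le_div_of_nonneg_right _ hw.le
    apply mul_le_mul_of_nonneg_left _ (by positivity)
    rw [le_div_iff₀ (by positivity)]
    calc al * (de * D * L) = (al * D) * (de * L) := by ring
      _ ≤ 1 * r := mul_le_mul hDal hr (by positivity) (by norm_num)
      _ = r := one_mul r
  have hd : 3 * q * (5 / 4 * (2 * L * al + w)) ≤ 45 / 4 * (1 / (de * D)) ^ 2 * Y := by
    have h1 : w ≤ al * L := by nlinarith
    have h2 : 5 / 4 * (2 * L * al + w) ≤ 15 / 4 * (L * al) := by nlinarith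
    have h3 : 3 * q * (5 / 4 * (2 * L * al + w)) ≤ 3 * q * (15 / 4 * (L * al)) :=
      mul_le_mul_of_nonneg_left h2 (by linarith)
    refine h3.trans ?_
    have e : 3 * q * (15 / 4 * (L * al)) = 45 / 4 * (r * L * al ^ 2) / w := by
      rw [e_q]; field_simp; ring
    have e2 : 45 / 4 * (1 / (de * D)) ^ 2 * Y = 45 / 4 * (r * (r ^ 2 / (de ^ 2 * D ^ 2 * L))) / w := by
      rw [hY]; field_simp
    rw [e, e2]
    apply div_le_div_of_nonneg_right _ hw.le
    apply mul_le_mul_of_nonneg_left _ (by norm_num)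
    rw [mul_assoc]
    apply mul_le_mul_of_nonneg_left _ hr0.le
    rw [le_div_iff₀ (by positivity)]
    have h5 : (al * D) ^ 2 ≤ 1 := by
      have : 0 ≤ al * D := by positivity
      nlinarith
    calc L * al ^ 2 * (de ^ 2 * D ^ 2 * L) = (al * D) ^ 2 * (de * L) ^ 2 := by ring
      _ ≤ 1 * r ^ 2 := mul_le_mul h5 hLr (by positivity) (by norm_num)
      _ = r ^ 2 := one_mul _
  have hx0 : 0 < 1 / (de * D) := by positivity
  have hx2 : (1 / (de * D)) ^ 2 ≤ 1 / (de * D) := by nlinarith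
  have hfin : 18 * (1 / (de * D)) ≤ et * (2 / 3) := by
    have h1 : 27 ≤ D * (de * et) := by rwa [div_le_iff₀ (by positivity)] at hD3
    rw [mul_one_div, div_le_iff₀ (by positivity)]
    nlinarith
  have hs1 : (4 / 3 * (r ^ 3 / (w / al)) + (2 * q + 1) * (w / al) ^ 2 / 12) / (2 * L * al + w) ≤
      4 / 3 * (r ^ 3 / (w / al)) / (2 * L * al + w) +
        3 * q * (w / al) ^ 2 / 12 / (2 * L * al + w) := by
    rw [← add_div]
    apply div_le_div_of_nonneg_right _ hB.le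
    have := mul_le_mul_of_nonneg_right h3q (by positivity : 0 ≤ (w / al) ^ 2)
    linarith
  have hs2 : (2 * q + 1) * (2 * r + 5 / 4 * (2 * L * al + w)) ≤
      3 * q * (2 * r) + 3 * q * (5 / 4 * (2 * L * al + w)) := by
    rw [← mul_add]
    exact mul_le_mul_of_nonneg_right h3q (by positivity)
  have h6 : (1 / 8 * (1 / (de * D)) ^ 2 + 6 * (1 / (de * D)) + 45 / 4 * (1 / (de * D)) ^ 2) * Y ≤
      et * (2 / 3) * Y := mul_le_mul_of_nonneg_right (by linarith) hY0.le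
  linarith

end Geom

open Geom

theorem geometry (de et : ℝ) (hde : 0 < de) (het : 0 < et) : ∃ D0 : ℝ, 1 ≤ D0 ∧
    ∀ (L w r al : ℝ), 0 < w → D0 * w ≤ L → de * L ≤ r → r < L → D0 * w / L ≤ al → al ≤ 1 / D0 →
    ∃ C : Finset (ℤ × ℤ), Set.InjOn Prod.fst (C : Set (ℤ × ℤ)) ∧
      (1 - et) * (r ^ 2 / (L * w)) ≤ C.card ∧
      ∑ v ∈ C ∪ C.image sh, len L w al v ≤ (1 + et) * (2 / 3) * (r ^ 3 / (L * w)) ∧
      (∀ v ∈ C, len L w al v ≤ r) ∧ (∀ v ∈ C ∪ C.image sh, |(v.1 : ℝ)| ≤ r / w + 1) := by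
  refine ⟨1 + 1 / de + 27 / (de * et) + 4 / (de ^ 2 * et), by
    have : 0 ≤ 1 / de + 27 / (de * et) + 4 / (de ^ 2 * et) := by positivity
    linarith, ?_⟩
  intro L w r al hw hDL hr hrL hal1 hal2
  set D := 1 + 1 / de + 27 / (de * et) + 4 / (de ^ 2 * et) with hD
  have hD1 : 1 ≤ D := by
    have : 0 ≤ 1 / de + 27 / (de * et) + 4 / (de ^ 2 * et) := by positivity
    linarith
  have hD0 : 0 < D := by linarith
  have hL : 0 < L := by nlinarith
  have hr0 : 0 < r := lt_of_lt_of_le (by positivity) hr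
  have hal : 0 < al := lt_of_lt_of_le (by positivity) hal1
  have p1 : 0 ≤ 1 / de := by positivity
  have p2 : 0 ≤ 27 / (de * et) := by positivity
  have p3 : 0 ≤ 4 / (de ^ 2 * et) := by positivity
  have hD2' : 1 / de ≤ D := by linarith
  have hD2 : 27 / (de * et) ≤ D := by linarith
  have hD3 : 4 / (de ^ 2 * et) ≤ D := by linarith
  have hde1 : de < 1 := by
    by_contra h
    rw [not_lt] at h
    nlinarith
  refine ⟨CC L w al r, CC_inj hw hL hal hrL, ?_, ?_, fun v hv => len_CC hw hL hal hv, ?_⟩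
  · refine le_trans ?_ (card_CC hw hL hal hr0.le)
    exact num_card hw hDL hr hde hde1 het hal1 hal2 hL hr0 hal hD0 hD3
  · refine le_trans (Finset.sum_le_sum_of_subset_of_nonneg (CC_sub L w al r)
      (fun v _ _ => len_nonneg hw.le hL.le v)) ?_
    refine le_trans (sum_CC' hw hL hal hr0.le) ?_
    exact num_sum hw hr hde het hal1 hal2 hL hr0 hal hD1 hD2' hD2
  · intro v hv
    have key : ∀ u ∈ CC L w al r, |(u.1 : ℝ)| ≤ r / w := by
      intro u hu
      have h1 := len_CC hw hL hal hu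
      unfold len at h1
      have h2 : 0 ≤ 2 * L * |(u.1 : ℝ) * al - u.2| := by positivity
      rw [le_div_iff₀ hw]
      linarith
    rw [Finset.mem_union] at hv
    rcases hv with hv | hv
    · have := key v hv
      linarith
    · obtain ⟨u, hu, rfl⟩ := Finset.mem_image.mp hv
      have h1 := key u hu
      unfold sh
      push_cast
      have h2 := abs_add_le (u.1 : ℝ) 1
      rw [abs_one] at h2
      linarith

end Pool.ZB
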