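import Mathlib

/-! MP_4ab349_nt, project ZB: the choice of the primes.  Either one element has share `≥ 1 - s0`, or
some set has share `≥ s0` and at most half of the weight `lp`. -/

open Finset

namespace Pool.ZB

/-- A splitting: every set in which no element has share `> 1 - s0` is the union of two parts of
share `≥ s0`. -/
theorem split_share (s : Finset ℕ) (sg : ℕ → ℝ) (hsg : ∀ i ∈ s, 0 ≤ sg i)
    (s0 : ℝ) (hs0 : 0 < s0) (hs1 : s0 ≤ 1 / 3)
    (h : ∀ i ∈ s, sg i < (1 - s0) * ∑ i ∈ s, sg i) :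
    ∃ Q ⊆ s, s0 * ∑ i ∈ s, sg i ≤ ∑ i ∈ Q, sg i ∧ s0 * ∑ i ∈ s, sg i ≤ ∑ i ∈ s \ Q, sg i := by
  classical
  set T := ∑ i ∈ s, sg i with hT
  have hT0 : 0 ≤ T := Finset.sum_nonneg hsg
  by_cases hA : ∃ i ∈ s, s0 * T ≤ sg i
  · obtain ⟨i, hi, hi2⟩ := hA
    refine ⟨{i}, by simpa using hi, by simpa using hi2, ?_⟩
    have h1 : ∑ j ∈ s \ {i}, sg j + ∑ j ∈ ({i} : Finset ℕ), sg j = T :=
      Finset.sum_sdiff (by simpa using hi)
    rw [Finset.sum_singleton] at h1
    have h2 := h i hi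
    linarith
  · simp only [not_exists, not_and, not_le] at hA
    rcases hT0.eq_or_lt with h0 | h0
    · refine ⟨∅, Finset.empty_subset _, ?_, ?_⟩
      · rw [← h0]; simp
      · rw [← h0, mul_zero]
        exact Finset.sum_nonneg fun i hi => hsg i (Finset.sdiff_subset hi)
    · have hne : (s.powerset.filter (fun Q => s0 * T ≤ ∑ i ∈ Q, sg i)).Nonempty := by
        refine ⟨s, ?_⟩
        rw [Finset.mem_filter, Finset.mem_powerset]
        refine ⟨subset_rfl, ?_⟩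
        rw [← hT]
        nlinarith
      obtain ⟨Q, hQ, hmin⟩ := Finset.exists_min_image _ (fun Q => Q.card) hne
      rw [Finset.mem_filter, Finset.mem_powerset] at hQ
      obtain ⟨hQs, hQ2⟩ := hQ
      have hQne : Q.Nonempty := by
        rw [Finset.nonempty_iff_ne_empty]
        rintro rfl
        rw [Finset.sum_empty] at hQ2
        nlinarith [mul_pos hs0 h0]
      obtain ⟨j, hj⟩ := hQne
      have h3 : ∑ i ∈ Q.erase j, sg i < s0 * T := by
        by_contra hcon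
        rw [not_lt] at hcon
        have h4 := hmin (Q.erase j) (by
          rw [Finset.mem_filter, Finset.mem_powerset]
          exact ⟨(Finset.erase_subset _ _).trans hQs, hcon⟩)
        have h5 := Finset.card_erase_lt_of_mem hj
        omega
      have h6 : sg j + ∑ i ∈ Q.erase j, sg i = ∑ i ∈ Q, sg i := Finset.add_sum_erase Q sg hj
      have h7 := hA j (hQs hj)
      refine ⟨Q, hQs, hQ2, ?_⟩
      have h8 : ∑ i ∈ s \ Q, sg i + ∑ i ∈ Q, sg i = T := Finset.sum_sdiff hQs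
      nlinarith [mul_pos hs0 h0]

/-- Either a set has weight at most one half and share at least `s0`, or one element has share at
least `1 - s0`. -/
theorem share_half (s : Finset ℕ) (lp sg : ℕ → ℝ) (hsg : ∀ i ∈ s, 0 ≤ sg i)
    (s0 : ℝ) (hs0 : 0 < s0) (hs1 : s0 ≤ 1 / 3) :
    (∃ Q ⊆ s, ∑ i ∈ Q, lp i ≤ 1 / 2 * ∑ i ∈ s, lp i ∧ s0 * ∑ i ∈ s, sg i ≤ ∑ i ∈ Q, sg i) ∨
    (∃ i ∈ s, (1 - s0) * ∑ i ∈ s, sg i ≤ sg i) := by
  classical
  by_cases h : ∃ i ∈ s, (1 - s0) * ∑ i ∈ s, sg i ≤ sg i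
  · exact Or.inr h
  · left
    simp only [not_exists, not_and, not_le] at h
    obtain ⟨Q, hQs, h1, h2⟩ := split_share s sg hsg s0 hs0 hs1 h
    have h3 : ∑ i ∈ s \ Q, lp i + ∑ i ∈ Q, lp i = ∑ i ∈ s, lp i := Finset.sum_sdiff hQs
    rcases le_total (∑ i ∈ Q, lp i) (∑ i ∈ s \ Q, lp i) with h4 | h4
    · exact ⟨Q, hQs, by linarith, h1⟩
    · exact ⟨s \ Q, Finset.sdiff_subset, by linarith, h2⟩

end Pool.ZB
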