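import Pool.Agent.Helper44.ZB.Case1
import Pool.Agent.Helper44.ZB.Case2
import Pool.Agent.Helper93.ZB.Share

/-! Project ZB: one entry which is not small, with the greatest prime factor and the radical. -/

set_option autoImplicit false

namespace Pool.ZB

open Finset Pool.RA

/-- `log F = ∑ v_p log p`. -/
theorem log_eq_sum (F : ℕ) (hF : 0 < F) :
    Real.log F = ∑ p ∈ F.primeFactors, (F.factorization p : ℝ) * Real.log p := by
  have h := Nat.prod_factorization_pow_eq_self hF.ne'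
  conv_lhs => rw [← h]
  unfold Finsupp.prod
  rw [Nat.cast_prod, Real.log_prod]
  · rw [Nat.support_factorization]
    apply Finset.sum_congr rfl
    intro p _
    rw [Nat.cast_pow, Real.log_pow]
  · intro p hp
    rw [Nat.support_factorization] at hp
    have := (Nat.prime_of_mem_primeFactors hp).pos
    positivity

theorem Tri.one_le {E1 E2 F N : ℕ} {L : ℝ} (H : Tri E1 E2 F N L) : (1 : ℝ) ≤ N := by
  have h1 : 0 < ∏ q ∈ (E1 * E2 * F).primeFactors, q :=
    Finset.prod_pos fun q hq => (Nat.prime_of_mem_primeFactors hq).pos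
  have h2 : 1 ≤ N := le_trans h1 H.rad
  exact_mod_cast h2

/-- One entry `F` which is not small: `log F ≥ (1 - τ) L`. -/
theorem entry (ε : ℝ) (hε : 0 < ε) : ∃ τ C : ℝ, 0 < τ ∧ τ < 1 ∧ 1 ≤ C ∧
    ∀ (E1 E2 F N : ℕ) (L : ℝ), Tri E1 E2 F N L → (1 - τ) * L ≤ Real.log F →
      |Real.log E1 - Real.log E2| ≤ τ * L → 0 < L →
      L ≤ C * (N : ℝ) ^ ε * max (((F.primeFactors.sup id : ℕ) : ℝ) ^ (2 / 3 : ℝ))
        (((∏ q ∈ F.primeFactors, q : ℕ) : ℝ) ^ (1 / 2 : ℝ)) := by
  obtain ⟨τ2, C2, hτ2, hτ2', hC2, H2⟩ := case_single (ε / 2) (by linarith)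
  set s0 : ℝ := min (1 / 3) (τ2 / 2) with hs0
  have hs0p : 0 < s0 := lt_min (by norm_num) (by linarith)
  have hs01 : s0 ≤ 1 / 3 := min_le_left _ _
  have hs02 : s0 ≤ τ2 / 2 := min_le_right _ _
  obtain ⟨C1, hC1, H1⟩ := case_comp (ε / 2) (s0 / 2) (by linarith) (by linarith) (by linarith)
  refine ⟨τ2 / 2, max C1 C2, by linarith, by linarith, le_trans hC1 (le_max_left _ _), ?_⟩
  intro E1 E2 F N L H hF hE hL
  have hN1 : (1 : ℝ) ≤ N := H.one_le
  have hN0 : (0 : ℝ) < N := by linarith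
  have hNe : (1 : ℝ) ≤ (N : ℝ) ^ (ε / 2) := Real.one_le_rpow hN1 (by linarith)
  have hNmul : (N : ℝ) ^ ε = (N : ℝ) ^ (ε / 2) * (N : ℝ) ^ (ε / 2) := by
    rw [← Real.rpow_add hN0]
    congr 1
    ring
  set R : ℝ := ((∏ q ∈ F.primeFactors, q : ℕ) : ℝ) with hR
  have hRpos : 0 < ∏ q ∈ F.primeFactors, q :=
    Finset.prod_pos fun q hq => (Nat.prime_of_mem_primeFactors hq).pos
  have hR1 : 1 ≤ R := by
    rw [hR]
    exact_mod_cast hRpos
  have hRh : 1 ≤ R ^ (1 / 2 : ℝ) := Real.one_le_rpow hR1 (by norm_num)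
  set M : ℝ := max (((F.primeFactors.sup id : ℕ) : ℝ) ^ (2 / 3 : ℝ)) (R ^ (1 / 2 : ℝ)) with hM
  have hM1 : 1 ≤ M := le_trans hRh (le_max_right _ _)
  set C := max C1 C2 with hC
  have hC1' : C1 ≤ C := le_max_left _ _
  have hC2' : C2 ≤ C := le_max_right _ _
  have hC0 : 0 < C := by linarith
  have hNN : (N : ℝ) ^ (ε / 2) ≤ (N : ℝ) ^ ε := by
    rw [hNmul]
    nlinarith
  have hlog := log_eq_sum F H.posF
  set sg : ℕ → ℝ := fun p => (F.factorization p : ℝ) * Real.log p with hsg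
  have hsg0 : ∀ p ∈ F.primeFactors, 0 ≤ sg p := by
    intro p hp
    have h1 : (1 : ℝ) ≤ p := by exact_mod_cast (Nat.prime_of_mem_primeFactors hp).one_le
    exact mul_nonneg (Nat.cast_nonneg _) (Real.log_nonneg h1)
  rcases share_half F.primeFactors (fun p => Real.log (p : ℝ)) sg hsg0 s0 hs0p hs01 with
    ⟨Q, hQ, h1, h2⟩ | ⟨p, hp, h1⟩
  · -- a set of primes
    have h3 : s0 / 2 * L ≤ ∑ p ∈ Q, (F.factorization p : ℝ) * Real.log p := by
      have h4 : s0 * Real.log F ≤ ∑ p ∈ Q, sg p := by rw [hlog]; exact h2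
      have h5 : (1 / 2 : ℝ) * L ≤ Real.log F := by nlinarith
      have h6 := mul_le_mul_of_nonneg_left h5 hs0p.le
      linarith
    have h4 := H1 E1 E2 F N L H Q hQ h3
    have h5 : ((∏ p ∈ Q, p : ℕ) : ℝ) ≤ R ^ (1 / 2 : ℝ) := by
      have hQpos : 0 < ∏ p ∈ Q, p :=
        Finset.prod_pos fun q hq => (Nat.prime_of_mem_primeFactors (hQ hq)).pos
      have hQr : (0 : ℝ) < ((∏ p ∈ Q, p : ℕ) : ℝ) := by exact_mod_cast hQpos
      have e1 : Real.log ((∏ p ∈ Q, p : ℕ) : ℝ) = ∑ p ∈ Q, Real.log (p : ℝ) := by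
        rw [Nat.cast_prod, Real.log_prod]
        intro q hq
        have := (Nat.prime_of_mem_primeFactors (hQ hq)).pos
        positivity
      have e2 : Real.log R = ∑ p ∈ F.primeFactors, Real.log (p : ℝ) := by
        rw [hR, Nat.cast_prod, Real.log_prod]
        intro q hq
        have := (Nat.prime_of_mem_primeFactors hq).pos
        positivity
      rw [← Real.log_le_log_iff hQr (by positivity), Real.log_rpow (by linarith), e1, e2]
      exact h1
    calc L ≤ C1 * (N : ℝ) ^ (ε / 2) * ((∏ p ∈ Q, p : ℕ) : ℝ) := h4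
      _ ≤ C1 * (N : ℝ) ^ (ε / 2) * R ^ (1 / 2 : ℝ) := by
        apply mul_le_mul_of_nonneg_left h5
        positivity
      _ ≤ C * (N : ℝ) ^ ε * M := by
        apply mul_le_mul _ (le_max_right _ _) (by positivity) (by positivity)
        exact mul_le_mul hC1' hNN (by positivity) (by positivity)
  · -- one prime
    have hpp := Nat.prime_of_mem_primeFactors hp
    have hp1 : (1 : ℝ) ≤ p := by exact_mod_cast hpp.one_le
    have h2' : (1 - τ2 / 2) * ((1 - τ2 / 2) * L) ≤ (F.factorization p : ℝ) * Real.log p := by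
      have h3 : (1 - s0) * Real.log F ≤ sg p := by rw [hlog]; exact h1
      have h4 : (1 - τ2 / 2) * ((1 - τ2 / 2) * L) ≤ (1 - s0) * Real.log F := by
        apply mul_le_mul (by linarith) hF _ (by linarith)
        apply mul_nonneg (by linarith) hL.le
      exact h4.trans h3
    have h2 : (1 - τ2) * L ≤ (F.factorization p : ℝ) * Real.log p := by
      refine le_trans ?_ h2'
      have : 0 ≤ (τ2 / 2) ^ 2 * L := by positivity
      nlinarith
    rcases le_or_gt ((N : ℝ) ^ (ε / 2)) p with h3 | h3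
    · have h4 := H2 E1 E2 F N L H p hp h2 (hE.trans (by nlinarith)) h3
      have h5 : (p : ℝ) ≤ ((F.primeFactors.sup id : ℕ) : ℝ) := by
        exact_mod_cast Finset.le_sup (f := id) hp
      have h6 : (p : ℝ) ^ (2 / 3 : ℝ) ≤ M :=
        (Real.rpow_le_rpow (by linarith) h5 (by norm_num)).trans (le_max_left _ _)
      calc L ≤ C2 * (N : ℝ) ^ (ε / 2) * (p : ℝ) ^ (2 / 3 : ℝ) := h4
        _ ≤ C * (N : ℝ) ^ ε * M := by
          apply mul_le_mul _ h6 (by positivity) (by positivity)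
          exact mul_le_mul hC2' hNN (by positivity) (by positivity)
    · have h4 := H1 E1 E2 F N L H {p} (by simpa using hp) (by
        rw [Finset.sum_singleton]
        refine le_trans ?_ h2'
        have h7 : s0 / 2 ≤ (1 - τ2 / 2) * (1 - τ2 / 2) := by nlinarith
        rw [← mul_assoc]
        exact mul_le_mul_of_nonneg_right h7 hL.le)
      rw [Finset.prod_singleton] at h4
      calc L ≤ C1 * (N : ℝ) ^ (ε / 2) * (p : ℝ) := h4
        _ ≤ C1 * (N : ℝ) ^ (ε / 2) * (N : ℝ) ^ (ε / 2) := by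
          apply mul_le_mul_of_nonneg_left h3.le
          positivity
        _ = C1 * (N : ℝ) ^ ε * 1 := by rw [hNmul]; ring
        _ ≤ C * (N : ℝ) ^ ε * M := by
          apply mul_le_mul _ hM1 (by norm_num) (by positivity)
          exact mul_le_mul_of_nonneg_right hC1' (by positivity)

end Pool.ZB
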